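import Pool.Agent.Helper66_DA.K2lab
import Pool.Agent.Helper4_DA.S1
import Pool.Agent.Helper95_CLB.ClosedStatic

/-!
Module K2: there is no closed chain with two units.
-/

set_option autoImplicit false
set_option linter.unusedSectionVars false

namespace CLB.H66

open Finset Classical
open H3DA (Q neg nr)
open CLB.H95
open CLB.H3 (CExt Cat IsTwo he_of_unc cat_side_c noFull_small rlaw_sets zs zs_card zs_unc uuS_cat
  eU_sum_ge llS mmS pos third_unique)

variable {V : Type*} {H : SimpleGraph V} {R : V → Bool} {x y : ℕ → V}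

/-- Counting near pairs. -/
lemma pick {L1 L2 : Finset Q} {B : Finset (Q × Q)} {p q : ℕ} (h1 : 8 ≤ L1.card + p)
    (h2 : 8 ≤ L2.card + q) (h : 4 * (p + q) + B.card < 32) :
    ∃ s ∈ L1, ∃ t ∈ L2, nr s t = true ∧ (s, t) ∉ B := by
  by_contra hcon
  push Not at hcon
  have hsub : nearP ⊆ ((L1ᶜ).biUnion (fun s => (univ.filter (fun t => nr s t = true)).image
      (fun t => (s, t))) ∪ (L2ᶜ).biUnion (fun t => (univ.filter (fun s => nr t s = true)).image
      (fun s => (s, t)))) ∪ B := by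
    rintro ⟨s, t⟩ hst
    have hn : nr s t = true := by
      simpa [nearP] using hst
    by_cases hs : s ∈ L1
    · by_cases ht : t ∈ L2
      · exact mem_union_right _ (hcon s hs t ht hn)
      · refine mem_union_left _ (mem_union_right _ (mem_biUnion.2 ⟨t, mem_compl.2 ht, ?_⟩))
        refine mem_image.2 ⟨s, ?_, rfl⟩
        rw [mem_filter]
        exact ⟨mem_univ _, by rw [H3DA.nr_comm]; exact hn⟩
    · refine mem_union_left _ (mem_union_left _ (mem_biUnion.2 ⟨s, mem_compl.2 hs, ?_⟩))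
      refine mem_image.2 ⟨t, ?_, rfl⟩
      rw [mem_filter]
      exact ⟨mem_univ _, hn⟩
  have h3 := Finset.card_le_card hsub
  rw [nearP_card] at h3
  have h4 : ((L1ᶜ).biUnion (fun s => (univ.filter (fun t => nr s t = true)).image
      (fun t => (s, t)))).card ≤ (L1ᶜ).card * 4 := by
    refine Finset.card_biUnion_le_card_mul _ _ _ fun s _ => ?_
    exact Finset.card_image_le.trans (le_of_eq (near_row s))
  have h5 : ((L2ᶜ).biUnion (fun t => (univ.filter (fun s => nr t s = true)).image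
      (fun s => (s, t)))).card ≤ (L2ᶜ).card * 4 := by
    refine Finset.card_biUnion_le_card_mul _ _ _ fun t _ => ?_
    exact Finset.card_image_le.trans (le_of_eq (near_row t))
  have h6 := (Finset.card_union_le _ _).trans (Nat.add_le_add_right ((Finset.card_union_le _ _).trans
    (Nat.add_le_add h4 h5)) B.card)
  have h7 : (L1ᶜ).card = 8 - L1.card := by rw [Finset.card_compl, H3DA.card_Q]
  have h8 : (L2ᶜ).card = 8 - L2.card := by rw [Finset.card_compl, H3DA.card_Q]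
  rw [h7, h8] at h6
  have h9 : L1.card ≤ 8 := by
    have := Finset.card_le_univ L1
    rwa [H3DA.card_Q] at this
  have h10 : L2.card ≤ 8 := by
    have := Finset.card_le_univ L2
    rwa [H3DA.card_Q] at this
  omega

lemma inC_cases {v : V} (hv : InC 2 x y v) : v = x 1 ∨ v = y 1 ∨ v = x 2 ∨ v = y 2 := by
  obtain ⟨i, h1, h2, h3⟩ := hv
  have : i = 1 ∨ i = 2 := by omega
  rcases this with rfl | rfl <;> rcases h3 with h3 | h3
  · exact Or.inl h3
  · exact Or.inr (Or.inl h3)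
  · exact Or.inr (Or.inr (Or.inl h3))
  · exact Or.inr (Or.inr (Or.inr h3))

lemma cext_of {s : ℕ → Q} {i j : ℕ} (hi : i ≤ 1) (hj : 2 ≤ j) (hj3 : j ≤ 3)
    (h : ext2 (s i) (s (1 - i)) (s j) (s (5 - j)) = true) : CExt 2 s := by
  obtain ⟨u, w, h1, h2, h3, h4, h5⟩ := ext2_iff.1 h
  have a0 : nr u (s 0) = true := by
    have : i = 0 ∨ i = 1 := by omega
    rcases this with rfl | rfl
    · exact h1
    · exact h2
  have a1 : nr u (s 1) = true := by
    have : i = 0 ∨ i = 1 := by omega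
    rcases this with rfl | rfl
    · exact h2
    · exact h1
  have a2 : nr w (s 2) = true := by
    have : j = 2 ∨ j = 3 := by omega
    rcases this with rfl | rfl
    · exact h3
    · exact h4
  have a3 : nr w (s 3) = true := by
    have : j = 2 ∨ j = 3 := by omega
    rcases this with rfl | rfl
    · exact h4
    · exact h3
  refine ⟨fun n => if n = 1 then u else w, fun n h6 h7 => ?_, ?_, ?_, fun n h6 h7 => ?_⟩
  · have : n = 1 ∨ n = 2 := by omega
    rcases this with rfl | rfl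
    · simpa using a1
    · simpa using a2
  · simpa using a0
  · simpa using a3
  · have : n = 1 := by omega
    subst this
    simpa using h5

lemma ext2_swap (a f b g : Q) (h : ext2 a f b g = true) : ext2 b g a f = true := by
  obtain ⟨u, w, h1, h2, h3, h4, h5⟩ := ext2_iff.1 h
  exact ext2_iff.2 ⟨w, u, h3, h4, h1, h2, by rw [H3DA.nr_comm]; exact h5⟩

/-- The caterpillar with two vertices sees `u` and `v` at different vertices, and nothing else of the
chain. -/
def Typ (x y : ℕ → V) (u v : V) (c : ℕ → V) : Prop :=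
  ∃ i j, i ≤ 1 ∧ 2 ≤ j ∧ j ≤ 3 ∧ ((c i = u ∧ c j = v) ∨ (c i = v ∧ c j = u)) ∧
    ¬ InC 2 x y (c (1 - i)) ∧ ¬ InC 2 x y (c (5 - j))

variable [Fintype V]

/-- An uncovered vertex sees at most one vertex of the chain. -/
lemma no_two (hG : ClassC H R) (h : Chn H R 2 x y) {z a b : V} (hz : ¬ Cov H R z) (hza : H.Adj z a)
    (hzb : H.Adj z b) (ha : InC 2 x y a) (hb : InC 2 x y b) : a = b := by
  have m1 := h.me 1 le_rfl (by norm_num)
  have m2 := h.me 2 (by norm_num) le_rfl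
  have l1 := (h.lk 1 le_rfl (by norm_num)).1.2
  have e1 := (he_of_unc hz hza).2
  have e2 := (he_of_unc hz hzb).2
  have hR : R a = R b := by
    revert e1 e2
    cases R z <;> cases R a <;> cases R b <;> simp
  have s1 := m1.2
  have s2 := m2.2
  have l1' : R (y 1) ≠ R (x 2) := l1
  have tri : ∀ u v, H.Adj z u → H.Adj z v → ¬ H.Adj u v := fun u v hu hv huv =>
    hG.tri _ _ _ hu huv hv
  have t1 : ¬ (H.Adj z (x 1) ∧ H.Adj z (y 1)) := fun hh => tri _ _ hh.1 hh.2 m1.1
  have t2 : ¬ (H.Adj z (x 2) ∧ H.Adj z (y 2)) := fun hh => tri _ _ hh.1 hh.2 m2.1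
  have n1 : R (x 1) ≠ R (x 2) := by rw [s1]; exact l1'
  have n2 : R (x 1) ≠ R (y 2) := by rw [s1, ← s2]; exact l1'
  have n3 : R (y 1) ≠ R (y 2) := by rw [← s2]; exact l1'
  rcases inC_cases ha with rfl | rfl | rfl | rfl <;> rcases inC_cases hb with rfl | rfl | rfl | rfl
  · rfl
  · exact absurd ⟨hza, hzb⟩ t1
  · exact absurd hR n1
  · exact absurd hR n2
  · exact absurd ⟨hzb, hza⟩ t1
  · rfl
  · exact absurd hR l1'
  · exact absurd hR n3
  · exact absurd hR.symm n1
  · exact absurd hR.symm l1'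
  · rfl
  · exact absurd ⟨hza, hzb⟩ t2
  · exact absurd hR.symm n2
  · exact absurd hR.symm n3
  · exact absurd ⟨hzb, hza⟩ t2
  · rfl

/-- Ports of a caterpillar with two vertices are not linked. -/
lemma no_link (hG : ClassC H R) (hc : Crit H R) {z c : ℕ → V} (hcat : Cat H R 2 z c) {i j : ℕ}
    (hi : i ≤ 3) (hj : j ≤ 3) : ¬ He H R (c i) (c j) := by
  intro he
  set S : Finset V := (range 4).image c with hS
  have hcS : ∀ l ≤ 3, c l ∈ S := fun l hl => mem_image_of_mem c (mem_range.2 (by omega))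
  have hcov : ∀ w ∈ S, Cov H R w := by
    intro w hw
    obtain ⟨l, hl, rfl⟩ := mem_image.1 hw
    exact hcat.cov _ (by have := mem_range.1 hl; omega)
  have key := rlaw_sets hG (zs 2 z) S (zs_unc hcat) hcov
  rw [zs_card hcat] at key
  have h1 := uuS_cat hcat
  have h2 := eU_sum_ge hcat (S := S) (J := range 4) (fun l hl => by
    have := mem_range.1 hl
    omega) (fun l hl => hcS l (by
    have := mem_range.1 hl
    omega))
  rw [card_range] at h2
  have hnf := noFull_small hG hc hcat (by norm_num)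
  have h5 : mmS H R S = 0 := by
    by_contra hne
    obtain ⟨u, hu, v, hv, huv⟩ := CLB.H4.exists_mates (Nat.pos_of_ne_zero hne)
    obtain ⟨l, hl, rfl⟩ := mem_image.1 hu
    obtain ⟨l', hl', rfl⟩ := mem_image.1 hv
    have b1 := mem_range.1 hl
    have b2 := mem_range.1 hl'
    exact hnf l l' (by omega) (by omega) huv
  have h4 : S.card ≤ 4 := by
    rw [hS]
    exact Finset.card_image_le.trans (le_of_eq (card_range 4))
  have h6 : 2 ≤ llS H R S := by
    unfold llS
    have h1 : ∑ w ∈ ({c i, c j} : Finset V), (S.filter (fun x => He H R w x)).card ≤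
        ∑ w ∈ S, (S.filter (fun x => He H R w x)).card := by
      refine Finset.sum_le_sum_of_subset fun w hw => ?_
      rw [mem_insert, mem_singleton] at hw
      rcases hw with rfl | rfl
      · exact hcS i hi
      · exact hcS j hj
    rw [Finset.sum_pair he.ne] at h1
    have h2 : 1 ≤ (S.filter (fun x => He H R (c i) x)).card :=
      Finset.card_pos.2 ⟨c j, by rw [mem_filter]; exact ⟨hcS j hj, he⟩⟩
    have h3 : 1 ≤ (S.filter (fun x => He H R (c j) x)).card :=
      Finset.card_pos.2 ⟨c i, by rw [mem_filter]; exact ⟨hcS i hi, he.symm⟩⟩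
    omega
  omega

/-- The components which are not static. -/
lemma nonstat (hG : ClassC H R) (hc : Crit H R) (h : Chn H R 2 x y) (hl : Lk H R (y 2) (x 1))
    {m : ℕ} {z c : ℕ → V} (hcat : Cat H R m z c) (hst : ¬ StatC 2 x y m c) :
    m = 2 ∧ (Typ x y (x 1) (x 2) c ∨ Typ x y (y 1) (y 2) c) := by
  have hp := hcat.pos
  have hadj : ∀ j ≤ m + 1, H.Adj (z (cl m j)) (c j) := fun j hj => (cat_adj_cl hcat hj).symm
  have hunc : ∀ j ≤ m + 1, ¬ Cov H R (z (cl m j)) := fun j hj =>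
    hcat.unc _ (cl_mem hp hj).1 (cl_mem hp hj).2
  have two : ∀ i j, i ≤ m + 1 → j ≤ m + 1 → cl m i = cl m j → InC 2 x y (c i) → InC 2 x y (c j) →
      c i = c j := fun i j hi hj hij h1 h2 =>
    no_two hG h (hunc i hi) (hadj i hi) (hij ▸ hadj j hj) h1 h2
  have hm1 : m ≠ 1 := by
    rintro rfl
    apply hst
    refine ⟨fun _ i j hi hj h1 h2 => ?_, fun h2 => by omega⟩
    have e := two i j (by omega) (by omega) (by
      have a1 := cl_mem hp (show i ≤ 1 + 1 by omega)
      have a2 := cl_mem hp (show j ≤ 1 + 1 by omega)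
      omega) h1 h2
    have n0 := hcat.ne0
    have n1 := hcat.ne1 rfl
    have n2 := hcat.nem
    have : (i = 0 ∨ i = 1 ∨ i = 2) ∧ (j = 0 ∨ j = 1 ∨ j = 2) := by omega
    rcases this with ⟨rfl | rfl | rfl, rfl | rfl | rfl⟩
    · rfl
    · exact absurd e n0
    · exact absurd e n1
    · exact absurd e.symm n0
    · rfl
    · exact absurd e n2
    · exact absurd e.symm n1
    · exact absurd e.symm n2
    · rfl
  have e0 : cl m 0 = 1 := by unfold cl; simp
  have e1 : cl m 1 = 1 := by unfold cl; rw [if_neg (by omega), if_neg (by omega)]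
  have em : cl m m = m := by unfold cl; rw [if_neg (by omega), if_neg (by omega)]
  have em1 : cl m (m + 1) = m := by unfold cl; rw [if_neg (by omega), if_pos rfl]
  have f1 : ¬ (InC 2 x y (c 0) ∧ InC 2 x y (c 1)) := fun hh =>
    hcat.ne0 (two 0 1 (by omega) (by omega) (by rw [e0, e1]) hh.1 hh.2)
  have f2 : ¬ (InC 2 x y (c m) ∧ InC 2 x y (c (m + 1))) := fun hh =>
    hcat.nem (two m (m + 1) (by omega) le_rfl (by rw [em, em1]) hh.1 hh.2)
  have f3 : ¬ (InC 2 x y (c 0) ∨ InC 2 x y (c 1) → InC 2 x y (c m) ∨ InC 2 x y (c (m + 1)) → 3 ≤ m) := by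
    intro hh
    exact hst ⟨fun h1 => absurd h1 hm1, fun _ => ⟨f1, f2, hh⟩⟩
  have hm : m = 2 := by
    by_contra hne
    exact f3 (fun _ _ => by omega)
  subst hm
  refine ⟨rfl, ?_⟩
  have g1 : InC 2 x y (c 0) ∨ InC 2 x y (c 1) := by
    by_contra hne
    exact f3 (fun h1 => absurd h1 hne)
  have g2 : InC 2 x y (c 2) ∨ InC 2 x y (c (2 + 1)) := by
    by_contra hne
    exact f3 (fun _ h1 => absurd h1 hne)
  obtain ⟨i, hi, hi1, hi2⟩ : ∃ i, i ≤ 1 ∧ InC 2 x y (c i) ∧ ¬ InC 2 x y (c (1 - i)) := by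
    rcases g1 with g | g
    · exact ⟨0, by omega, g, fun g' => f1 ⟨g, g'⟩⟩
    · exact ⟨1, le_rfl, g, fun g' => f1 ⟨g', g⟩⟩
  obtain ⟨j, hj2, hj3, hj, hj'⟩ : ∃ j, 2 ≤ j ∧ j ≤ 3 ∧ InC 2 x y (c j) ∧ ¬ InC 2 x y (c (5 - j)) := by
    rcases g2 with g | g
    · exact ⟨2, le_rfl, by omega, g, fun g' => f2 ⟨g, g'⟩⟩
    · exact ⟨3, by omega, le_rfl, g, fun g' => f2 ⟨g', g⟩⟩
  have hR : R (c i) ≠ R (c j) := by
    have a1 := cat_side_c hcat (j := i) (by omega)
    have a2 := cat_side_c hcat (j := j) (by omega)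
    have b1 : pos 2 i = 1 := by
      have : i = 0 ∨ i = 1 := by omega
      rcases this with rfl | rfl <;> rfl
    have b2 : pos 2 j = 2 := by
      have : j = 2 ∨ j = 3 := by omega
      rcases this with rfl | rfl <;> rfl
    rw [a1, a2, b1, b2]
    cases R (z 1) <;> decide
  have s1 : R (x 1) = R (y 1) := (h.me 1 le_rfl (by norm_num)).2
  have s2 : R (x 2) = R (y 2) := (h.me 2 (by norm_num) le_rfl).2
  have l1 : He H R (y 1) (x 2) := (h.lk 1 le_rfl (by norm_num)).1
  have l2 : He H R (y 2) (x 1) := hl.1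
  have nl : ¬ He H R (c i) (c j) := no_link hG hc hcat (by omega) (by omega)
  have hres : (c i = x 1 ∧ c j = x 2) ∨ (c i = x 2 ∧ c j = x 1) ∨ (c i = y 1 ∧ c j = y 2) ∨
      (c i = y 2 ∧ c j = y 1) := by
    rcases inC_cases hi1 with a | a | a | a <;> rcases inC_cases hj with b | b | b | b <;>
      rw [a, b] at hR nl
    · exact absurd rfl hR
    · exact absurd s1 hR
    · exact Or.inl ⟨a, b⟩
    · exact absurd l2.symm nl
    · exact absurd s1.symm hR
    · exact absurd rfl hR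
    · exact absurd l1 nl
    · exact Or.inr (Or.inr (Or.inl ⟨a, b⟩))
    · exact Or.inr (Or.inl ⟨a, b⟩)
    · exact absurd l1.symm nl
    · exact absurd rfl hR
    · exact absurd s2 hR
    · exact absurd l2 nl
    · exact Or.inr (Or.inr (Or.inr ⟨a, b⟩))
    · exact absurd s2.symm hR
    · exact absurd rfl hR
  rcases hres with hh | hh | hh | hh
  · exact Or.inl ⟨i, j, hi, hj2, hj3, Or.inl hh, hi2, hj'⟩
  · exact Or.inl ⟨i, j, hi, hj2, hj3, Or.inr hh, hi2, hj'⟩
  · exact Or.inr ⟨i, j, hi, hj2, hj3, Or.inl hh, hi2, hj'⟩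
  · exact Or.inr ⟨i, j, hi, hj2, hj3, Or.inr hh, hi2, hj'⟩

/-- A linked vertex is a port of at most one component. -/
lemma port_supp (hG : ClassC H R) {p w z0 : V} (hl : Lk H R p w) {z c : ℕ → V} (hcat : Cat H R 2 z c)
    {l : ℕ} (hl3 : l ≤ 3) (hp : c l = p) (ha : H.Adj p z0) (hz0 : ¬ Cov H R z0) : z0 ∈ cSupp 2 z := by
  have a1 := cl_mem hcat.pos (show l ≤ 2 + 1 by omega)
  have a2 := cat_adj_cl hcat (show l ≤ 2 + 1 by omega)
  rw [hp] at a2
  rw [third_unique hG hl ha a2 hz0 (hcat.unc _ a1.1 a1.2)]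
  exact mem_cSupp a1.1 a1.2

/-- The bad pairs of a component. -/
lemma bad_exists (h : Chn H R 2 x y) (f : V → Q) {u v : V}
    (huv : (u = x 1 ∧ v = x 2) ∨ (u = y 1 ∧ v = y 2)) {c : ℕ → V} (ht : Typ x y u v c) :
    ∃ B : Finset (Q × Q), B.card ≤ 11 ∧ ∀ mu : ℕ → Q, nr (mu 1) (mu 2) = true → (mu 1, mu 2) ∉ B →
      CExt 2 (fun j => lbl 2 x y mu f (c j)) := by
  obtain ⟨i, j, hi, hj2, hj3, hij, h1, h2⟩ := ht
  have o1 : ∀ mu, lbl 2 x y mu f (c (1 - i)) = f (c (1 - i)) := fun mu => lbl_out h1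
  have o2 : ∀ mu, lbl 2 x y mu f (c (5 - j)) = f (c (5 - j)) := fun mu => lbl_out h2
  have x1 : ∀ mu, lbl 2 x y mu f (x 1) = neg (mu 1) := fun mu => by
    rw [lbl_x h le_rfl (by norm_num), sg_odd (by norm_num)]
  have x2 : ∀ mu, lbl 2 x y mu f (x 2) = mu 2 := fun mu => by
    rw [lbl_x h (by norm_num) le_rfl, sg_even (by norm_num)]
  have y1 : ∀ mu, lbl 2 x y mu f (y 1) = mu 1 := fun mu => by
    rw [lbl_y h le_rfl (by norm_num), sg_odd (by norm_num), H3DA.neg_neg]
  have y2 : ∀ mu, lbl 2 x y mu f (y 2) = neg (mu 2) := fun mu => by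
    rw [lbl_y h (by norm_num) le_rfl, sg_even (by norm_num)]
  have key : ∀ (s t g g' : Q), nr s t = true → (s, t) ∉ badP g g' → ext2 (neg s) g t g' = true := by
    intro s t g g' hn hb
    by_contra hne
    apply hb
    unfold badP
    rw [mem_filter]
    exact ⟨mem_univ _, hn, by simpa using hne⟩
  have card_swap : ∀ g g', ((badP g g').image Prod.swap).card ≤ 11 := fun g g' =>
    Finset.card_image_le.trans (badP_card g g')
  have not_swap : ∀ (s t g g' : Q), (s, t) ∉ (badP g g').image Prod.swap → (t, s) ∉ badP g g' :=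
    fun s t g g' hn hb => hn (mem_image.2 ⟨(t, s), hb, rfl⟩)
  rcases huv with ⟨rfl, rfl⟩ | ⟨rfl, rfl⟩
  · rcases hij with ⟨e1, e2⟩ | ⟨e1, e2⟩
    · refine ⟨badP (f (c (1 - i))) (f (c (5 - j))), badP_card _ _, fun mu hn hb => ?_⟩
      refine cext_of hi hj2 hj3 ?_
      show ext2 (lbl 2 x y mu f (c i)) (lbl 2 x y mu f (c (1 - i))) (lbl 2 x y mu f (c j))
        (lbl 2 x y mu f (c (5 - j))) = true
      rw [o1, o2, e1, e2, x1, x2]
      exact key _ _ _ _ hn hb
    · refine ⟨badP (f (c (5 - j))) (f (c (1 - i))), badP_card _ _, fun mu hn hb => ?_⟩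
      refine cext_of hi hj2 hj3 ?_
      show ext2 (lbl 2 x y mu f (c i)) (lbl 2 x y mu f (c (1 - i))) (lbl 2 x y mu f (c j))
        (lbl 2 x y mu f (c (5 - j))) = true
      rw [o1, o2, e1, e2, x1, x2]
      exact ext2_swap _ _ _ _ (key _ _ _ _ hn hb)
  · rcases hij with ⟨e1, e2⟩ | ⟨e1, e2⟩
    · refine ⟨(badP (f (c (5 - j))) (f (c (1 - i)))).image Prod.swap, card_swap _ _,
        fun mu hn hb => ?_⟩
      refine cext_of hi hj2 hj3 ?_
      show ext2 (lbl 2 x y mu f (c i)) (lbl 2 x y mu f (c (1 - i))) (lbl 2 x y mu f (c j))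
        (lbl 2 x y mu f (c (5 - j))) = true
      rw [o1, o2, e1, e2, y1, y2]
      exact ext2_swap _ _ _ _ (key _ _ _ _ (by rw [H3DA.nr_comm]; exact hn) (not_swap _ _ _ _ hb))
    · refine ⟨(badP (f (c (1 - i))) (f (c (5 - j)))).image Prod.swap, card_swap _ _,
        fun mu hn hb => ?_⟩
      refine cext_of hi hj2 hj3 ?_
      show ext2 (lbl 2 x y mu f (c i)) (lbl 2 x y mu f (c (1 - i))) (lbl 2 x y mu f (c j))
        (lbl 2 x y mu f (c (5 - j))) = true
      rw [o1, o2, e1, e2, y1, y2]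
      exact key _ _ _ _ (by rw [H3DA.nr_comm]; exact hn) (not_swap _ _ _ _ hb)

/-- The component seeing `u` and `v`, if it exists. -/
lemma part (hG : ClassC H R) (h : Chn H R 2 x y) (hl : Lk H R (y 2) (x 1)) (f : V → Q) {u v : V}
    (huv : (u = x 1 ∧ v = x 2) ∨ (u = y 1 ∧ v = y 2)) :
    ∃ (S : Set V) (B : Finset (Q × Q)),
      (∀ mu : ℕ → Q, nr (mu 1) (mu 2) = true → (mu 1, mu 2) ∉ B → ∀ m z c, Cat H R m z c →
        (∃ i, 1 ≤ i ∧ i ≤ m ∧ z i ∈ S) → CExt m (fun j => lbl 2 x y mu f (c j))) ∧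
      (∀ w ∈ S, ∃ z c, Cat H R 2 z c ∧ w ∈ cSupp 2 z) ∧
      (((∀ z c, Cat H R 2 z c → ¬ Typ x y u v c) ∧ B = ∅) ∨
        ((∀ z c, Cat H R 2 z c → Typ x y u v c → z 1 ∈ S) ∧ B.card ≤ 11 ∧
          ∀ p, (p = u ∨ p = v) → ∀ z0, H.Adj p z0 → ¬ Cov H R z0 → z0 ∈ S)) := by
  by_cases hex : ∃ z c, Cat H R 2 z c ∧ Typ x y u v c
  · obtain ⟨z, c, hcat, ht⟩ := hex
    obtain ⟨B, hB, hB'⟩ := bad_exists h f huv ht
    have lku : ∃ w, Lk H R u w := by
      rcases huv with ⟨rfl, rfl⟩ | ⟨rfl, rfl⟩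
      · exact ⟨_, hl.symm⟩
      · exact ⟨_, h.lk 1 le_rfl (by norm_num)⟩
    have lkv : ∃ w, Lk H R v w := by
      rcases huv with ⟨rfl, rfl⟩ | ⟨rfl, rfl⟩
      · exact ⟨_, (h.lk 1 le_rfl (by norm_num)).symm⟩
      · exact ⟨_, hl⟩
    have hsee : ∀ p, (p = u ∨ p = v) → ∀ z0, H.Adj p z0 → ¬ Cov H R z0 → z0 ∈ cSupp 2 z := by
      obtain ⟨i, j, hi, hj2, hj3, hij, -, -⟩ := ht
      obtain ⟨w, hw⟩ := lku
      obtain ⟨w', hw'⟩ := lkv
      rintro p (rfl | rfl) z0 ha hz0
      · rcases hij with ⟨e1, e2⟩ | ⟨e1, e2⟩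
        · exact port_supp hG hw hcat (l := i) (by omega) e1 ha hz0
        · exact port_supp hG hw hcat (l := j) (by omega) e2 ha hz0
      · rcases hij with ⟨e1, e2⟩ | ⟨e1, e2⟩
        · exact port_supp hG hw' hcat (l := j) (by omega) e2 ha hz0
        · exact port_supp hG hw' hcat (l := i) (by omega) e1 ha hz0
    refine ⟨cSupp 2 z, B, ?_, fun w hw => ⟨z, c, hcat, hw⟩, Or.inr ⟨?_, hB, hsee⟩⟩
    · rintro mu hn hb m z' c' hcat' ⟨i, h1, h2, h3⟩
      have e := cSupp_eq hcat hcat' h3 (mem_cSupp h1 h2)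
      have h4 := hB' mu hn hb
      rw [cext_iff_fits hcat (lbl 2 x y mu f)] at h4
      rw [cext_iff_fits hcat' (lbl 2 x y mu f), ← e]
      exact h4
    · intro z' c' hcat' ht'
      obtain ⟨i, j, hi, hj2, hj3, hij, -, -⟩ := ht'
      have hci : c' i = u ∨ c' i = v := by
        rcases hij with ⟨e1, e2⟩ | ⟨e1, e2⟩
        · exact Or.inl e1
        · exact Or.inr e1
      have a2 : H.Adj (c' i) (z' 1) := by
        have : i = 0 ∨ i = 1 := by omega
        rcases this with rfl | rfl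
        · exact hcat'.adj0.symm
        · exact (hcat'.adjc 1 le_rfl (by norm_num)).symm
      exact hsee _ hci _ a2 (hcat'.unc 1 le_rfl (by norm_num))
  · refine ⟨∅, ∅, ?_, fun w hw => absurd hw (Set.notMem_empty w), Or.inl ⟨fun z c h1 h2 =>
      hex ⟨z, c, h1, h2⟩, rfl⟩⟩
    rintro mu - - m z c - ⟨i, -, -, h1⟩
    exact absurd h1 (Set.notMem_empty _)

/-- **There is no closed chain with two units.** -/
theorem k2_false (hG : ClassC H R) (hc : Crit H R) (h : Chn H R 2 x y) (hl : Lk H R (y 2) (x 1)) :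
    False := by
  have hT0 : ∀ v a b, IsTwo H R v a b → InC 2 x y a → ¬ InC 2 x y b := by
    rintro v a b ⟨h1, h2, h3, h4, -, -, -⟩ ha hb
    exact h4 (no_two hG h h1 h2 h3 ha hb)
  obtain ⟨f, hf⟩ := exists_off h hc
  obtain ⟨S, B, hS1, hS2, hS3⟩ := part hG h hl f (Or.inl ⟨rfl, rfl⟩)
  obtain ⟨S', B', hS1', hS2', hS3'⟩ := part hG h hl f (Or.inr ⟨rfl, rfl⟩)
  obtain ⟨Φ, hΦ⟩ := exists_forb h hf (S ∪ S') (x 1) (x 1)
  have lkx1 : Lk H R (x 1) (y 2) := hl.symm
  have lky1 : Lk H R (y 1) (x 2) := h.lk 1 le_rfl (by norm_num)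
  have c0 : ∀ v w, Lk H R v w → cst H R Φ v ≤ 2 := fun v w hvw => by
    have := cst_le hΦ.two (prt_card_lk hG hvw)
    omega
  have cz : ∀ v, (∀ z0, H.Adj v z0 → ¬ Cov H R z0 → z0 ∈ S ∪ S') → cst H R Φ v = 0 := by
    intro v hv
    unfold cst
    refine Finset.sum_eq_zero fun z hz => ?_
    rw [mem_prt] at hz
    rw [hΦ.triv v z (hv z hz.1 hz.2), Finset.card_empty]
  by_cases hst : ∀ m z c, Cat H R m z c → (∃ j ≤ m + 1, InC 2 x y (c j)) → StatC 2 x y m c
  · exact closed_static hG hc h hl hT0 hst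
  have hsmall : 4 * ((cst H R Φ (x 1) + cst H R Φ (y 1)) + (cst H R Φ (x 2) + cst H R Φ (y 2))) +
      (B ∪ B').card < 32 := by
    have hu := Finset.card_union_le B B'
    have a1 := c0 _ _ lkx1
    have a2 := c0 _ _ lky1
    have a3 := c0 _ _ lky1.symm
    have a4 := c0 _ _ hl
    rcases hS3 with ⟨n1, b1⟩ | ⟨-, b1, s1⟩
    · rcases hS3' with ⟨n2, b2⟩ | ⟨-, b2, s2⟩
      · exfalso
        apply hst
        intro m z c hcat _
        by_contra hns
        obtain ⟨rfl, ht | ht⟩ := nonstat hG hc h hl hcat hns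
        · exact n1 z c hcat ht
        · exact n2 z c hcat ht
      · have e1 := cz (y 1) (fun z0 h1 h2 => Or.inr (s2 _ (Or.inl rfl) z0 h1 h2))
        have e2 := cz (y 2) (fun z0 h1 h2 => Or.inr (s2 _ (Or.inr rfl) z0 h1 h2))
        have b1' : B.card = 0 := by rw [b1, Finset.card_empty]
        omega
    · have e1 := cz (x 1) (fun z0 h1 h2 => Or.inl (s1 _ (Or.inl rfl) z0 h1 h2))
      have e2 := cz (x 2) (fun z0 h1 h2 => Or.inl (s1 _ (Or.inr rfl) z0 h1 h2))
      rcases hS3' with ⟨n2, b2⟩ | ⟨-, b2, s2⟩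
      · have b2' : B'.card = 0 := by rw [b2, Finset.card_empty]
        omega
      · have e3 := cz (y 1) (fun z0 h1 h2 => Or.inr (s2 _ (Or.inl rfl) z0 h1 h2))
        have e4 := cz (y 2) (fun z0 h1 h2 => Or.inr (s2 _ (Or.inr rfl) z0 h1 h2))
        omega
  obtain ⟨s, hs, t, ht, hn, hnb⟩ := pick (L1 := lst H R x y Φ 1) (L2 := lst H R x y Φ 2)
    (B := B ∪ B') (p := cst H R Φ (x 1) + cst H R Φ (y 1)) (q := cst H R Φ (x 2) + cst H R Φ (y 2))
    (by have := lst_card (G := H) (R := R) (x := x) (y := y) Φ 1; omega)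
    (by have := lst_card (G := H) (R := R) (x := x) (y := y) Φ 2; omega) hsmall
  rw [mem_union, not_or] at hnb
  set mu : ℕ → Q := fun i => if i = 1 then s else t with hmu
  have m1 : mu 1 = s := by simp [hmu]
  have m2 : mu 2 = t := by simp [hmu]
  have hn' : nr (mu 1) (mu 2) = true := by rw [m1, m2]; exact hn
  refine chain_contra hG hc h (Or.inl hl) hf (mu := mu) ?_
  refine fit_of_lists h hΦ ?_ ?_ (fun _ => by rw [H3DA.nr_comm]; exact hn') ?_ ?_
  · intro i h1 h2
    have : i = 1 ∨ i = 2 := by omega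
    rcases this with rfl | rfl
    · rw [m1]; exact hs
    · rw [m2]; exact ht
  · intro i h1 h2
    have : i = 1 := by omega
    subst this
    exact hn'
  · intro v a b hT' ha hor
    exfalso
    rcases hor with h1 | h1
    · have : ∃ z c, Cat H R 2 z c ∧ v ∈ cSupp 2 z := by
        rcases h1 with h1 | h1
        · exact hS2 v h1
        · exact hS2' v h1
      obtain ⟨z, c, hcat, i, h2, h3, h4⟩ := this
      exact isTwo_not_cat hcat h2 h3 (h4 ▸ hT')
    · exact hT0 v a b hT' ha h1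
  · intro m z c hcat hex hor
    have hb1 : (mu 1, mu 2) ∉ B := by rw [m1, m2]; exact hnb.1
    have hb2 : (mu 1, mu 2) ∉ B' := by rw [m1, m2]; exact hnb.2
    have hin : (∃ i, 1 ≤ i ∧ i ≤ m ∧ z i ∈ S) ∨ ∃ i, 1 ≤ i ∧ i ≤ m ∧ z i ∈ S' := by
      rcases hor with h1 | ⟨i, h1, h2, h3⟩
      · obtain ⟨rfl, ht | ht⟩ := nonstat hG hc h hl hcat h1
        · left
          rcases hS3 with ⟨n1, -⟩ | ⟨n1, -, -⟩
          · exact absurd ht (n1 z c hcat)
          · exact ⟨1, le_rfl, by norm_num, n1 z c hcat ht⟩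
        · right
          rcases hS3' with ⟨n1, -⟩ | ⟨n1, -, -⟩
          · exact absurd ht (n1 z c hcat)
          · exact ⟨1, le_rfl, by norm_num, n1 z c hcat ht⟩
      · rcases h3 with h3 | h3
        · exact Or.inl ⟨i, h1, h2, h3⟩
        · exact Or.inr ⟨i, h1, h2, h3⟩
    rcases hin with h1 | h1
    · exact hS1 mu hn' hb1 m z c hcat h1
    · exact hS1' mu hn' hb2 m z c hcat h1

end CLB.H66
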