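import Pool.Agent.Helper3_DA.Lab

/-!
Labels at a caterpillar with two vertices both of which see a closed chain of two units: at most 11 of the
32 near pairs of labels are forbidden.
-/

set_option autoImplicit false

namespace CLB.H66

open Finset
open H3DA (Q neg nr)

/-- All labels. -/
def qs : List Q := [(false, false, false), (false, false, true), (false, true, false), (false, true, true),
  (true, false, false), (true, false, true), (true, true, false), (true, true, true)]

lemma mem_qs (t : Q) : t ∈ qs := by revert t; decide

/-- Labels of the two vertices exist. -/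
def ext2 (a f b g : Q) : Bool :=
  qs.any fun u => nr u a && (nr u f && qs.any fun w => nr w b && (nr w g && nr u w))

lemma ext2_iff {a f b g : Q} : ext2 a f b g = true ↔ ∃ u w, nr u a = true ∧ nr u f = true ∧
    nr w b = true ∧ nr w g = true ∧ nr u w = true := by
  unfold ext2
  simp only [List.any_eq_true, Bool.and_eq_true]
  constructor
  · rintro ⟨u, -, h1, h2, w, -, h3, h4, h5⟩
    exact ⟨u, w, h1, h2, h3, h4, h5⟩
  · rintro ⟨u, w, h1, h2, h3, h4, h5⟩
    exact ⟨u, mem_qs u, h1, h2, w, mem_qs w, h3, h4, h5⟩

/-- The bad near pairs. -/
def badP (f g : Q) : Finset (Q × Q) :=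
  univ.filter (fun p => nr p.1 p.2 = true ∧ ext2 (neg p.1) f p.2 g = false)

lemma badP_card (f g : Q) : (badP f g).card ≤ 11 := by
  have key : ∀ f g : Q, (badP f g).card ≤ 11 := by decide +kernel
  exact key f g

/-- The near pairs. -/
def nearP : Finset (Q × Q) := univ.filter (fun p => nr p.1 p.2 = true)

lemma nearP_card : nearP.card = 32 := by decide +kernel

lemma near_row (s : Q) : (univ.filter (fun t => nr s t = true)).card = 4 := by
  revert s; decide +kernel

end CLB.H66
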